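import Pool.Agent.N522.ML.Defs

/-!
# MP_f23696_ag: lower semicontinuity for product pairs
-/

open Pool.Agent.N522.ML

/-- Q1 holds for a product pair `(X × Y, Δ × Y + X × Δ')` if and only if it holds for `(X, Δ)` and
for `(Y, Δ')`. -/
theorem Pool.Agent.Results.MP_f23696_ag.ProductPairs.result :
    ∀ T : Theory, Facts T → ∀ P Q : T.Pair, Q1 (T.prod P Q) ↔ Q1 P ∧ Q1 Q :=
  fun _ F P Q => q1_prod F P Q
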