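import Mathlib
import Pool.Agent.N148.LS.Fin
import Pool.Agent.N148.LS.JAC
import Pool.Agent.N148.LS.XI
import Pool.Agent.N148.LS.COMB
import Pool.Agent.N148.LS.SEP
import Pool.Agent.N148.LS.AMON
import Pool.Agent.N148.LS.NB1
import Pool.Agent.N148.LS.NB2
import Pool.Agent.N148.LS.NB3
import Pool.Agent.N148.LS.IND

/-!
# Lower semicontinuity of minimal log discrepancies at torus fixed points, for boundaries that need
not be toric

Let `X` be an affine toric variety over `ℂ` of dimension `n` with a fixed point `P` (given by any
strictly convex rational cone of dimension `n`, simplicial or not), and let `B` be an effective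
`ℝ`-divisor on `X` with coefficients at most one such that `K_X + B` is `ℝ`-Cartier at `P`. The
divisor `B` need not be torus invariant: its components through `P` which meet the torus are prime
divisors `H_1, ..., H_s` which are nondegenerate (for all weights in the cone the initial forms have
no singular zeros in the torus) and without common zeros of the initial forms.

Theorem: there is a Zariski open neighbourhood `U` of `P` such that for all closed points `Q` of `U`
the divisor `K_X + B` is `ℝ`-Cartier at `Q` and `mld (X ∋ P, B) ≤ mld (X ∋ Q, B)`. So the minimal log
discrepancy, as a function on the closed points with values in `ℝ ∪ {-∞}`, is lower semicontinuous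
at `P`.

Proof. Let `v` be a prime divisor over `Q`, let `u` be its weight vector, and choose a minimal set
`S` of rays of the cone such that `u' = u + ∑_{i ∈ S} E_i` is in the interior. By minimality there are
characters `μ_i`, `i ∈ S`, which do not vanish at `Q` and with `⟨μ_i, E_j⟩ = 0` for `j ≠ i`. The
functions `μ_i - μ_i (Q)` have positive order at `v`, and so has the excess of the order of `H_j` over
the least weight, if the centre of `v` is in `H_j` in a suitable sense. The Jacobian inequality for
these functions bounds the log discrepancy of `v` from below. The log discrepancy of the monomial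
valuation with weights `u'` is bounded from above by subadditivity; there is a gain, unless a
monomial of `H_j` is minimal for `u` and for all `E_i`. In that case Euler operators give one more
function for the Jacobian inequality, because a certain part of the initial form of `H_j` does not
vanish near `P`.
-/

set_option autoImplicit false

namespace Pool.Agent.Results.MP_f23696_ag.ToricFixedPoints

open Pool.Agent.TH165.ACC Pool.Agent.W497.Mld Pool.Agent.H436R3.KT MvPolynomial

/-- **Lower semicontinuity of minimal log discrepancies at the fixed point of a toric variety.** -/
theorem result (n : ℕ) (g : ToricGerm n (FractionRing (MvPolynomial (Fin n) ℂ)))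
    (B : EffDiv g.X) (e : LocEq B g.P) (s : ℕ) (p : Fin s → MvPolynomial (Fin n) ℂ)
    (hp : Pool.Agent.N148.LS.Good g B p) :
    ∃ f : g.X.R, g.P f ≠ 0 ∧ ∀ Q : Pt g.X, Q f ≠ 0 → Nonempty (LocEq B Q) ∧
      ∀ e' : LocEq B Q, Pool.Agent.N148.LS.mldE e ≤ Pool.Agent.N148.LS.mldE e' :=
  Pool.Agent.N148.LS.fin2 Pool.Agent.N148.LS.jac Pool.Agent.N148.LS.xi Pool.Agent.N148.LS.comb
    Pool.Agent.N148.LS.sep Pool.Agent.N148.LS.t_AMON Pool.Agent.N148.LS.nb1
    Pool.Agent.N148.LS.nb2 Pool.Agent.N148.LS.nb3 Pool.Agent.N148.LS.ind e hp

end Pool.Agent.Results.MP_f23696_ag.ToricFixedPoints
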